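import Pool.Agent.Helper31.Fam

set_option autoImplicit false

/-!
# Normal form of a smooth binary form

A binary form of degree `n > 0` over an infinite field, without a common zero with its partial
derivatives, becomes a constant times the homogenization of a monic separable polynomial after an
invertible linear substitution.
-/

universe u

namespace Pool.Agent.Helper31.Fam

open Polynomial

variable {k : Type u} [Field k]

/-- Linear substitution in a binary form. -/
noncomputable def lsub (M : Matrix (Fin 2) (Fin 2) k) (f : MvPolynomial (Fin 2) k) :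
    MvPolynomial (Fin 2) k :=
  MvPolynomial.bind₁ (fun i => ∑ j, MvPolynomial.C (M i j) * MvPolynomial.X j) f

lemma aeval_lsub {L : Type*} [CommRing L] [Algebra k L] (M : Matrix (Fin 2) (Fin 2) k)
    (f : MvPolynomial (Fin 2) k) (y : Fin 2 → L) :
    MvPolynomial.aeval y (lsub M f) =
      MvPolynomial.aeval (fun i => ∑ j, algebraMap k L (M i j) * y j) f := by
  rw [lsub, MvPolynomial.aeval_bind₁]
  congr 2
  funext i
  simp [map_mul]

lemma eval_lsub (M : Matrix (Fin 2) (Fin 2) k) (f : MvPolynomial (Fin 2) k) (y : Fin 2 → k) :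
    MvPolynomial.eval y (lsub M f) = MvPolynomial.eval (M.mulVec y) f := by
  exact aeval_lsub M f y

lemma lsub_isHomogeneous (M : Matrix (Fin 2) (Fin 2) k) {f : MvPolynomial (Fin 2) k} {n : ℕ}
    (hf : f.IsHomogeneous n) : (lsub M f).IsHomogeneous n := by
  have h := hf.aeval (n := 1) (fun i => ∑ j, MvPolynomial.C (M i j) * MvPolynomial.X j)
    (fun i => MvPolynomial.IsHomogeneous.sum _ _ 1 fun j _ => by
      have h1 := (MvPolynomial.isHomogeneous_C (Fin 2) (M i j)).mul
        (MvPolynomial.isHomogeneous_X k j)
      rwa [zero_add] at h1)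
  rw [one_mul] at h
  exact h

lemma pderiv_lsub (M : Matrix (Fin 2) (Fin 2) k) (f : MvPolynomial (Fin 2) k) (j : Fin 2) :
    MvPolynomial.pderiv j (lsub M f) =
      ∑ i, MvPolynomial.C (M i j) * lsub M (MvPolynomial.pderiv i f) := by
  induction f using MvPolynomial.induction_on with
  | C a => simp [lsub]
  | add p q hp hq =>
    simp only [lsub, map_add, mul_add, Finset.sum_add_distrib] at hp hq ⊢
    rw [hp, hq]
  | mul_X p i hp =>
    have h1 : lsub M (p * MvPolynomial.X i) =
        lsub M p * ∑ l, MvPolynomial.C (M i l) * MvPolynomial.X l := by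
      simp [lsub]
    rw [h1, Derivation.leibniz, hp]
    have h2 : MvPolynomial.pderiv j (∑ l, MvPolynomial.C (M i l) * MvPolynomial.X l) =
        MvPolynomial.C (M i j) := by
      rw [map_sum]
      simp only [Derivation.leibniz, MvPolynomial.pderiv_X, MvPolynomial.pderiv_C, smul_eq_mul]
      rw [Finset.sum_eq_single j]
      · simp
      · intro b _ hb
        simp [hb]
      · intro h
        exact absurd (Finset.mem_univ j) h
    rw [h2]
    have h3 : ∀ l, lsub M (MvPolynomial.pderiv l (p * MvPolynomial.X i)) =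
        lsub M p * MvPolynomial.C (if i = l then 1 else 0) +
          (∑ m, MvPolynomial.C (M i m) * MvPolynomial.X m) * lsub M (MvPolynomial.pderiv l p) := by
      intro l
      rw [Derivation.leibniz, MvPolynomial.pderiv_X]
      simp only [lsub, smul_eq_mul, map_add, map_mul, MvPolynomial.bind₁_X_right]
      congr 1
      by_cases h : i = l
      · subst h
        simp
      · simp [h]
    simp only [h3, smul_eq_mul]
    simp only [Fin.sum_univ_two]
    fin_cases i <;> simp <;> ring

lemma derivative_aeval_X_one (g : MvPolynomial (Fin 2) k) :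
    derivative (MvPolynomial.aeval ![(X : k[X]), 1] g) =
      MvPolynomial.aeval ![(X : k[X]), 1] (MvPolynomial.pderiv 0 g) := by
  induction g using MvPolynomial.induction_on with
  | C a => simp
  | add p q hp hq => simp only [map_add, hp, hq]
  | mul_X p i hp =>
    rw [map_mul, derivative_mul, hp, Derivation.leibniz, MvPolynomial.pderiv_X, map_add]
    fin_cases i
    · simp [mul_comm, add_comm]
    · simp

lemma natDegree_aeval_X_one_le {g : MvPolynomial (Fin 2) k} {n : ℕ} (hg : g.IsHomogeneous n) :
    (MvPolynomial.aeval ![(X : k[X]), 1] g).natDegree ≤ n := by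
  rw [g.as_sum, map_sum]
  refine natDegree_sum_le_of_forall_le _ _ fun m hm => ?_
  have h1 : m 0 + m 1 = n := by
    have h := hg (MvPolynomial.mem_support_iff.1 hm)
    rw [← h]
    simp [Finsupp.weight_apply, Finsupp.sum_fintype, Fin.sum_univ_two]
  rw [MvPolynomial.aeval_monomial, Finsupp.prod_fintype _ _ (fun i => pow_zero _),
    Fin.prod_univ_two]
  simp only [Matrix.cons_val_zero, Matrix.cons_val_one, one_pow, mul_one, algebraMap_eq]
  refine (natDegree_C_mul_le _ _).trans ?_
  rw [natDegree_X_pow]
  omega

/-- Normal form of a smooth binary form over an infinite field. -/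
theorem exists_normal_form [Infinite k] {n : ℕ} (hn : 0 < n) (f : MvPolynomial (Fin 2) k)
    (hf : f.IsHomogeneous n)
    (hsm : ∀ x : Fin 2 → AlgebraicClosure k, MvPolynomial.aeval x f = 0 →
      (∀ i, MvPolynomial.aeval x (MvPolynomial.pderiv i f) = 0) → x = 0) :
    ∃ (M : Matrix (Fin 2) (Fin 2) k) (c : k) (P : k[X]), M.det ≠ 0 ∧ c ≠ 0 ∧ P.Monic ∧
      P.Separable ∧ P.natDegree = n ∧ lsub M f = MvPolynomial.C c * P.homogenize n := by
  have hf0 : f ≠ 0 := by
    rintro rfl
    have h := hsm (fun _ => 1) (by simp) (by simp)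
    exact one_ne_zero (congrFun h 0)
  obtain ⟨v, hv⟩ : ∃ v : Fin 2 → k, MvPolynomial.eval v f ≠ 0 := by
    by_contra h
    push Not at h
    exact hf0 (MvPolynomial.funext fun v => by rw [h v, map_zero])
  have hv0 : v ≠ 0 := by
    rintro rfl
    apply hv
    have h := hf.coeff_eq_zero (d := 0) (by simpa using hn.ne)
    simpa [MvPolynomial.eval_zero, MvPolynomial.constantCoeff_eq] using h
  obtain ⟨M, hM, hMv⟩ : ∃ M : Matrix (Fin 2) (Fin 2) k, M.det ≠ 0 ∧ M.mulVec ![1, 0] = v := by
    by_cases h0 : v 0 = 0
    · have h1 : v 1 ≠ 0 := by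
        intro h1
        apply hv0
        funext i
        fin_cases i
        · exact h0
        · exact h1
      refine ⟨!![v 0, 1; v 1, 0], ?_, ?_⟩
      · rw [Matrix.det_fin_two_of]
        simpa using h1
      · funext i
        fin_cases i <;> simp [Matrix.mulVec, dotProduct, Fin.sum_univ_two]
    · refine ⟨!![v 0, 0; v 1, 1], ?_, ?_⟩
      · rw [Matrix.det_fin_two_of]
        simpa using h0
      · funext i
        fin_cases i <;> simp [Matrix.mulVec, dotProduct, Fin.sum_univ_two]
  set g := lsub M f with hg
  have hgh : g.IsHomogeneous n := lsub_isHomogeneous M hf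
  set c : k := MvPolynomial.eval v f with hc
  set q : k[X] := MvPolynomial.aeval ![(X : k[X]), 1] g with hq
  have hqd : q.natDegree ≤ n := natDegree_aeval_X_one_le hgh
  have hqg : q.homogenize n = g := homogenize_eq_of_isHomogeneous hgh hq.symm
  have hqn : q.coeff n = c := by
    have h1 : MvPolynomial.eval ![1, 0] g = c := by
      rw [hg, eval_lsub, hMv]
    have h2 := eval₂_homogenize_sum (RingHom.id k) q n ![1, 0]
    rw [MvPolynomial.eval₂_id, hqg, h1, Finset.sum_range_succ, Finset.sum_eq_zero] at h2
    · simpa using h2.symm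
    · intro j hj
      have : n - j ≠ 0 := by
        have := Finset.mem_range.1 hj
        omega
      simp [this]
  have hcoef : (C c⁻¹ * q).coeff n = 1 := by
    rw [coeff_C_mul, hqn, inv_mul_cancel₀ hv]
  have hPd : (C c⁻¹ * q).natDegree = n := by
    refine le_antisymm ((natDegree_C_mul_le _ _).trans hqd) ?_
    refine le_natDegree_of_ne_zero ?_
    rw [hcoef]
    exact one_ne_zero
  refine ⟨M, c, C c⁻¹ * q, hM, hv, ?_, ?_, hPd, ?_⟩
  · rw [Monic, leadingCoeff, hPd, hcoef]
  · refine (Polynomial.isCoprime_iff_aeval_ne_zero_of_isAlgClosed (k := k)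
      (AlgebraicClosure k) _ _).2 ?_
    intro r
    by_contra hr
    push Not at hr
    obtain ⟨hr1, hr2⟩ := hr
    have hc' : (C c⁻¹ : k[X]) ≠ 0 := by
      rw [Ne, C_eq_zero]
      exact inv_ne_zero hv
    have hc'' : algebraMap k (AlgebraicClosure k) c⁻¹ ≠ 0 := by
      rw [Ne, map_eq_zero]
      exact inv_ne_zero hv
    rw [derivative_C_mul] at hr2
    rw [map_mul, aeval_C] at hr1 hr2
    have hq1 : aeval r q = 0 := (mul_eq_zero.1 hr1).resolve_left hc''
    have hq2 : aeval r (derivative q) = 0 := (mul_eq_zero.1 hr2).resolve_left hc''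
    have hcomp : ∀ p : MvPolynomial (Fin 2) k,
        aeval r (MvPolynomial.aeval ![(X : k[X]), 1] p) =
          MvPolynomial.aeval ![r, (1 : AlgebraicClosure k)] p := by
      intro p
      have h := MvPolynomial.comp_aeval_apply (aeval (R := k) r) (f := ![(X : k[X]), 1]) p
      rw [h]
      congr 2
      funext i
      fin_cases i <;> simp
    rw [hq, hcomp] at hq1
    rw [hq, derivative_aeval_X_one, hcomp] at hq2
    have heul := congrArg (MvPolynomial.aeval ![r, (1 : AlgebraicClosure k)])
      hgh.sum_X_mul_pderiv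
    rw [Fin.sum_univ_two, map_add, map_mul, map_mul, map_nsmul, hq1, hq2] at heul
    have hq3 : MvPolynomial.aeval ![r, (1 : AlgebraicClosure k)] (MvPolynomial.pderiv 1 g) = 0 := by
      simpa using heul
    set y : Fin 2 → AlgebraicClosure k := ![r, 1] with hy
    set M' : Matrix (Fin 2) (Fin 2) (AlgebraicClosure k) := M.map (algebraMap k _) with hM'
    have hdet : M'.det ≠ 0 := by
      rw [hM', ← RingHom.mapMatrix_apply, ← RingHom.map_det, Ne, map_eq_zero]
      exact hM
    have hx0 : MvPolynomial.aeval (M'.mulVec y) f = 0 := by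
      rw [hg, aeval_lsub] at hq1
      exact hq1
    have hgrad : Matrix.vecMul
        (fun i => MvPolynomial.aeval (M'.mulVec y) (MvPolynomial.pderiv i f)) M' = 0 := by
      have key : ∀ j, MvPolynomial.aeval y (MvPolynomial.pderiv j g) = Matrix.vecMul
          (fun i => MvPolynomial.aeval (M'.mulVec y) (MvPolynomial.pderiv i f)) M' j := by
        intro j
        rw [hg, pderiv_lsub, map_sum, Matrix.vecMul, dotProduct]
        refine Finset.sum_congr rfl fun i _ => ?_
        rw [map_mul, aeval_lsub, mul_comm, MvPolynomial.aeval_C]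
        rfl
      funext j
      rw [← key j]
      fin_cases j
      · exact hq2
      · exact hq3
    have hgrad0 := Matrix.eq_zero_of_vecMul_eq_zero hdet hgrad
    have hx := hsm (M'.mulVec y) hx0 (fun i => congrFun hgrad0 i)
    have hy0 := Matrix.eq_zero_of_mulVec_eq_zero hdet hx
    exact one_ne_zero (congrFun hy0 1)
  · rw [homogenize_C_mul, hqg, ← mul_assoc, ← MvPolynomial.C_mul, mul_inv_cancel₀ hv,
      MvPolynomial.C_1, one_mul]

end Pool.Agent.Helper31.Fam
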