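import Mathlib

set_option autoImplicit false
set_option linter.unusedSectionVars false

/-!
# The family of residue fields of a monic separable polynomial

For `P` monic and separable over a field `k` of characteristic two we collect the fields
`K i = AdjoinRoot i` for `i` in the set of monic irreducible factors of `P`.
-/

universe u

namespace Pool.Agent.Helper31.Fam

open Polynomial

section Defs

variable {k : Type u} [Field k]

open Classical in
/-- The finite set of the monic irreducible factors of `P`. -/
noncomputable def facs (P : k[X]) : Finset k[X] :=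
  (UniqueFactorizationMonoid.normalizedFactors P).toFinset

/-- The index type of the family of fields attached to `P`. -/
abbrev Ix (P : k[X]) : Type u := {p : k[X] // p ∈ facs P}

variable {P : k[X]}

open Classical in
lemma Ix.mem (i : Ix P) : i.1 ∈ UniqueFactorizationMonoid.normalizedFactors P := by
  exact Multiset.mem_toFinset.1 i.2

open Classical in
lemma Ix.irreducible (i : Ix P) : Irreducible i.1 :=
  UniqueFactorizationMonoid.irreducible_of_normalized_factor _ i.mem

instance (i : Ix P) : Fact (Irreducible i.1) := ⟨i.irreducible⟩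

open Classical in
lemma Ix.monic (i : Ix P) : i.1.Monic := by
  have h := UniqueFactorizationMonoid.normalize_normalized_factor _ i.mem
  rw [← h]
  exact monic_normalize i.irreducible.ne_zero

open Classical in
lemma Ix.dvd (i : Ix P) : i.1 ∣ P := UniqueFactorizationMonoid.dvd_of_mem_normalizedFactors i.mem

/-- The field attached to a factor. -/
abbrev FK (i : Ix P) : Type u := AdjoinRoot i.1

/-- The root of the factor in its field. -/
noncomputable abbrev rt (i : Ix P) : FK i := AdjoinRoot.root i.1

instance (i : Ix P) : FiniteDimensional k (FK i) :=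
  (AdjoinRoot.powerBasis i.irreducible.ne_zero).finite

lemma finrank_FK (i : Ix P) : Module.finrank k (FK i) = i.1.natDegree := by
  rw [(AdjoinRoot.powerBasis i.irreducible.ne_zero).finrank, AdjoinRoot.powerBasis_dim]

lemma minpoly_rt (i : Ix P) : minpoly k (rt i) = i.1 := by
  rw [AdjoinRoot.minpoly_root i.irreducible.ne_zero, i.monic.leadingCoeff, inv_one, C_1, mul_one]

lemma aeval_rt_eq_zero_iff (i : Ix P) (D : k[X]) : aeval (rt i) D = 0 ↔ i.1 ∣ D := by
  rw [AdjoinRoot.aeval_eq, AdjoinRoot.mk_eq_zero]

end Defs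

section Sep

variable {k : Type u} [Field k] {P : k[X]}

lemma Ix.separable (hsep : P.Separable) (i : Ix P) : i.1.Separable := hsep.of_dvd i.dvd

lemma isSeparable_FK (hsep : P.Separable) (i : Ix P) : Algebra.IsSeparable k (FK i) := by
  have h1 : IsSeparable k (rt i) := by
    rw [IsSeparable, minpoly_rt]
    exact i.separable hsep
  have h2 : Algebra.IsSeparable k (IntermediateField.adjoin k {rt i}) :=
    (IntermediateField.isSeparable_adjoin_simple_iff_isSeparable k (FK i)).2 h1
  have h3 : IntermediateField.adjoin k {rt i} = ⊤ := by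
    have h4 := IntermediateField.algebra_adjoin_le_adjoin k {rt i}
    have h5 : Algebra.adjoin k {rt i} = ⊤ := AdjoinRoot.adjoinRoot_eq_top
    rw [h5, top_le_iff] at h4
    apply IntermediateField.toSubalgebra_injective
    rw [h4]
    rfl
  rw [h3] at h2
  exact (AlgEquiv.Algebra.isSeparable_iff (IntermediateField.topEquiv (F := k) (E := FK i))).1 h2

lemma prod_facs (hP : P.Monic) (hsep : P.Separable) : ∏ i : Ix P, i.1 = P := by
  classical
  have h1 : ∏ i : Ix P, i.1 = ∏ p ∈ facs P, p := Finset.prod_coe_sort (facs P) (fun p => p)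
  rw [h1]
  have hsq : Squarefree P := hsep.squarefree
  have h2 : (facs P).val = UniqueFactorizationMonoid.normalizedFactors P := by
    rw [facs, Multiset.toFinset_val, Multiset.dedup_eq_self]
    exact (UniqueFactorizationMonoid.squarefree_iff_nodup_normalizedFactors hP.ne_zero).1 hsq
  have h3 : ∏ p ∈ facs P, p = (UniqueFactorizationMonoid.normalizedFactors P).prod := by
    rw [← h2, Finset.prod_eq_multiset_prod, Multiset.map_id']
  rw [h3, UniqueFactorizationMonoid.prod_normalizedFactors_eq hP.ne_zero]
  exact hP.normalize_eq_self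

/-- (F5) -/
lemma sum_natDegree (hP : P.Monic) (hsep : P.Separable) :
    ∑ i : Ix P, i.1.natDegree = P.natDegree := by
  conv_rhs => rw [← prod_facs hP hsep]
  rw [natDegree_prod_of_monic _ _ (fun i _ => i.monic)]

/-- (F5) -/
lemma sum_finrank (hP : P.Monic) (hsep : P.Separable) :
    ∑ i : Ix P, Module.finrank k (FK i) = P.natDegree := by
  simp only [finrank_FK]
  exact sum_natDegree hP hsep

/-- (F3) -/
lemma aeval_rt (i : Ix P) : aeval (rt i) P = 0 := (aeval_rt_eq_zero_iff i P).2 i.dvd

/-- (F1) -/
lemma dvd_of_aeval_rt (hP : P.Monic) (hsep : P.Separable) {D : k[X]}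
    (h : ∀ i : Ix P, aeval (rt i) D = 0) : P ∣ D := by
  rw [← prod_facs hP hsep]
  refine Finset.prod_dvd_of_coprime ?_ fun i _ => (aeval_rt_eq_zero_iff i D).1 (h i)
  intro i _ j _ hij
  change IsCoprime i.1 j.1
  rw [i.irreducible.coprime_iff_not_dvd]
  intro h1
  apply hij
  apply Subtype.ext
  have h2 := (Irreducible.dvd_irreducible_iff_associated i.irreducible j.irreducible).1 h1
  exact Polynomial.eq_of_monic_of_associated i.monic j.monic h2

/-- The evaluation map at all roots. -/
noncomputable def evL (P : k[X]) (n : ℕ) : degreeLT k n →ₗ[k] (∀ i : Ix P, FK i) :=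
  (LinearMap.pi fun i : Ix P => (aeval (R := k) (rt i)).toLinearMap).comp (degreeLT k n).subtype

lemma evL_apply (n : ℕ) (D : degreeLT k n) (i : Ix P) : evL P n D i = aeval (rt i) D.1 := rfl

/-- (F2) -/
lemma exists_of_values (hP : P.Monic) (hsep : P.Separable) (z : ∀ i : Ix P, FK i) :
    ∃ D : k[X], D.degree < P.natDegree ∧ ∀ i, aeval (rt i) D = z i := by
  classical
  have hinj : Function.Injective (evL P P.natDegree) := by
    rw [← LinearMap.ker_eq_bot, LinearMap.ker_eq_bot']
    intro D hD
    have h1 : P ∣ D.1 := dvd_of_aeval_rt hP hsep fun i => by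
      have := congrFun hD i
      rwa [evL_apply] at this
    apply Subtype.ext
    by_contra hne
    have h2 := Polynomial.degree_le_of_dvd h1 hne
    have h3 := Polynomial.mem_degreeLT.1 D.2
    rw [degree_eq_natDegree hP.ne_zero] at h2
    exact absurd h3 (not_lt.2 h2)
  have hfr : Module.finrank k (degreeLT k P.natDegree) = Module.finrank k (∀ i : Ix P, FK i) := by
    rw [Module.finrank_pi_fintype, sum_finrank hP hsep]
    rw [LinearEquiv.finrank_eq (degreeLTEquiv k P.natDegree), Module.finrank_fin_fun]
  have hfin : FiniteDimensional k (degreeLT k P.natDegree) :=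
    LinearEquiv.finiteDimensional (degreeLTEquiv k P.natDegree).symm
  obtain ⟨D, hD⟩ := (LinearMap.injective_iff_surjective_of_finrank_eq_finrank hfr).1 hinj z
  refine ⟨D.1, Polynomial.mem_degreeLT.1 D.2, fun i => ?_⟩
  rw [← evL_apply, hD]

/-- (F2), with `natDegree`. -/
lemma exists_of_values' (hP : P.Monic) (hsep : P.Separable) (hn : 0 < P.natDegree)
    (z : ∀ i : Ix P, FK i) : ∃ D : k[X], D.natDegree < P.natDegree ∧ ∀ i, aeval (rt i) D = z i := by
  obtain ⟨D, hD, h⟩ := exists_of_values hP hsep z
  refine ⟨D, ?_, h⟩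
  by_cases h0 : D = 0
  · rw [h0, natDegree_zero]; exact hn
  · exact (natDegree_lt_iff_degree_lt h0).2 hD

end Sep

section Norm

variable {k : Type u} [Field k] {P : k[X]}

lemma norm_sub_rt (i : Ix P) (A : k) :
    Algebra.norm k (algebraMap k (FK i) A - rt i) = i.1.eval A := by
  have h1 : Algebra.norm k (algebraMap k (FK i) A - rt i) =
      (Algebra.lmul k (FK i) (rt i)).charpoly.eval A := by
    rw [LinearMap.eval_charpoly, Algebra.norm_apply]
    congr 1
    rw [map_sub, AlgHom.commutes]
  rw [h1]
  congr 1
  have h2 := charpoly_leftMulMatrix (AdjoinRoot.powerBasis i.irreducible.ne_zero)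
  rw [Algebra.leftMulMatrix_apply, LinearMap.charpoly_toMatrix, AdjoinRoot.powerBasis_gen] at h2
  exact h2.trans (minpoly_rt i)

/-- The value of the homogenization of a monic polynomial at `(A, 0)`. -/
lemma eval_homogenize_zero {L : Type*} [Field L] (f : k →+* L) {q : k[X]} (hq : q.Monic) (A : L) :
    MvPolynomial.eval₂ f ![A, 0] (q.homogenize q.natDegree) = A ^ q.natDegree := by
  rw [homogenize, MvPolynomial.eval₂_sum]
  rw [Finset.sum_eq_single (q.natDegree, 0)]
  · rw [MvPolynomial.eval₂_monomial]
    simp [hq.coeff_natDegree, Finsupp.prod_fintype, Fin.prod_univ_two]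
  · rintro ⟨a, b⟩ hab hne
    replace hab : a + b = q.natDegree := Finset.HasAntidiagonal.mem_antidiagonal.1 hab
    have hb : b ≠ 0 := by
      rintro rfl
      apply hne
      rw [Prod.mk.injEq]
      exact ⟨by simpa using hab, rfl⟩
    rw [MvPolynomial.eval₂_monomial]
    simp [Finsupp.prod_fintype, Fin.prod_univ_two, hb]
  · intro h
    exact absurd (by simp) h

lemma eval_homogenize_ne {L : Type*} [Field L] (f : k →+* L) {q : k[X]} {n : ℕ}
    (hn : q.natDegree ≤ n) (A : L) {B : L} (hB : B ≠ 0) :
    MvPolynomial.eval₂ f ![A, B] (q.homogenize n) = (q.map f).eval (A / B) * B ^ n := by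
  have h1 := eval_homogenize (p := q.map f) (n := n) (natDegree_map_le.trans hn) ![A, B]
    (by simpa using hB)
  rw [homogenize_map, MvPolynomial.eval_map] at h1
  simpa using h1

/-- (F4) for one factor: the norm of `A + B θ` is the value of the homogenization. -/
lemma norm_add_rt [CharP k 2] (i : Ix P) (A B : k) :
    Algebra.norm k (algebraMap k (FK i) A + algebraMap k (FK i) B * rt i) =
      MvPolynomial.eval ![A, B] (i.1.homogenize i.1.natDegree) := by
  have hc : CharP (FK i) 2 := charP_of_injective_algebraMap (algebraMap k (FK i)).injective 2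
  by_cases hB : B = 0
  · rw [hB, map_zero, zero_mul, add_zero, Algebra.norm_algebraMap, finrank_FK]
    have := eval_homogenize_zero (RingHom.id k) i.monic A
    rw [MvPolynomial.eval₂_id] at this
    rw [this]
  · have h1 : algebraMap k (FK i) A + algebraMap k (FK i) B * rt i =
        algebraMap k (FK i) B * (algebraMap k (FK i) (A / B) - rt i) := by
      have hB' : algebraMap k (FK i) B ≠ 0 := by rwa [Ne, map_eq_zero]
      rw [map_div₀, CharTwo.sub_eq_add, mul_add, mul_div_cancel₀ _ hB']
    rw [h1, map_mul, Algebra.norm_algebraMap, finrank_FK, norm_sub_rt]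
    have h2 := eval_homogenize_ne (RingHom.id k) (le_refl i.1.natDegree) A hB
    rw [MvPolynomial.eval₂_id, Polynomial.map_id] at h2
    rw [h2, mul_comm]

end Norm

section Forms

variable {k : Type u} [Field k] {P : k[X]}

/-- The form attached to a set of factors. -/
noncomputable def gT (T : Finset (Ix P)) : MvPolynomial (Fin 2) k :=
  (∏ i ∈ T, i.1).homogenize (∑ i ∈ T, i.1.natDegree)

lemma gT_isHomogeneous (T : Finset (Ix P)) : (gT T).IsHomogeneous (∑ i ∈ T, i.1.natDegree) :=
  isHomogeneous_homogenize _

lemma gT_isHomogeneous' (T : Finset (Ix P)) :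
    (gT T).IsHomogeneous (∑ i ∈ T, Module.finrank k (FK i)) := by
  simp only [finrank_FK]
  exact gT_isHomogeneous T

lemma gT_eq_prod (T : Finset (Ix P)) : gT T = ∏ i ∈ T, i.1.homogenize i.1.natDegree :=
  homogenize_finsetProd fun _ _ => le_rfl

lemma gT_mul_compl [DecidableEq (Ix P)] (hP : P.Monic) (hsep : P.Separable) (T : Finset (Ix P)) :
    gT T * gT Tᶜ = P.homogenize P.natDegree := by
  rw [gT_eq_prod, gT_eq_prod, Finset.prod_mul_prod_compl, ← homogenize_finsetProd
    (fun i _ => le_rfl), sum_natDegree hP hsep, prod_facs hP hsep]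

lemma eval_gT [CharP k 2] (T : Finset (Ix P)) (A B : k) :
    MvPolynomial.eval ![A, B] (gT T) =
      ∏ i ∈ T, Algebra.norm k (algebraMap k (FK i) A + algebraMap k (FK i) B * rt i) := by
  rw [gT_eq_prod, map_prod]
  exact Finset.prod_congr rfl fun i _ => (norm_add_rt i A B).symm

/-- The value of a homogenization as a sum. -/
lemma eval₂_homogenize_sum {L : Type*} [CommSemiring L] (f : k →+* L) (q : k[X]) (n : ℕ)
    (x : Fin 2 → L) : MvPolynomial.eval₂ f x (q.homogenize n) =
      ∑ j ∈ Finset.range (n + 1), f (q.coeff j) * x 0 ^ j * x 1 ^ (n - j) := by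
  rw [homogenize, MvPolynomial.eval₂_sum, Finset.Nat.sum_antidiagonal_eq_sum_range_succ_mk]
  refine Finset.sum_congr rfl fun j _ => ?_
  rw [MvPolynomial.eval₂_monomial]
  simp [Finsupp.prod_fintype, Fin.prod_univ_two, mul_assoc]

/-- (F4) -/
lemma sum_eq_prod_norm [CharP k 2] (hP : P.Monic) (hsep : P.Separable) (A B : k) :
    ∑ j ∈ Finset.range (P.natDegree + 1), P.coeff j * A ^ j * B ^ (P.natDegree - j) =
      ∏ i : Ix P, Algebra.norm k (algebraMap k (FK i) A + algebraMap k (FK i) B * rt i) := by
  classical
  rw [← eval_gT Finset.univ A B]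
  have h1 : gT (P := P) Finset.univ = P.homogenize P.natDegree := by
    rw [gT, sum_natDegree hP hsep, prod_facs hP hsep]
  rw [h1]
  have h2 := eval₂_homogenize_sum (RingHom.id k) P P.natDegree ![A, B]
  rw [MvPolynomial.eval₂_id] at h2
  rw [h2]
  simp

end Forms

end Pool.Agent.Helper31.Fam
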